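import Mathlib
import Pool.Agent.H13.Ldim
import Pool.Agent.H13.Dilworth

set_option autoImplicit false
open Filter

namespace Pool.Agent.Results.MP_33e188_co.Width

/-- A strict linear order `lt` on the subset `X` that extends the order induced by `P`. -/
structure PLE (P : Type) [PartialOrder P] where
  X : Set P
  lt : P → P → Prop
  mem : ∀ x y, lt x y → x ∈ X ∧ y ∈ X
  irrefl : ∀ x, ¬ lt x x
  trans : ∀ x y z, lt x y → lt y z → lt x z
  total : ∀ x ∈ X, ∀ y ∈ X, x ≠ y → lt x y ∨ lt y x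
  ext : ∀ x ∈ X, ∀ y ∈ X, x < y → lt x y

def IsLocalRealizer {P : Type} [PartialOrder P] (R : Set (PLE P)) : Prop :=
  (∀ x y : P, x < y → ∃ L ∈ R, L.lt x y) ∧
    ∀ x y : P, ¬ x ≤ y → ¬ y ≤ x → ∃ L ∈ R, L.lt y x

noncomputable def ldim (P : Type) [PartialOrder P] : ℕ :=
  sInf {t : ℕ | ∃ R : Set (PLE P), IsLocalRealizer R ∧
    ∀ x : P, {L | L ∈ R ∧ x ∈ L.X}.encard ≤ t}

def HasWidth (P : Type) [PartialOrder P] (w : ℕ) : Prop :=
  IsGreatest {k | ∃ A : Finset P, IsAntichain (· ≤ ·) (A : Set P) ∧ A.card = k} w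

open Pool.Agent.H13.Ldim Pool.Agent.H13.Dilworth

private theorem upper (P : Type) [Finite P] [PartialOrder P] (w : ℕ) (hw : 1 ≤ w)
    (h : HasWidth P w) : ∃ R : Set (PLE P), IsLocalRealizer R ∧
      ∀ x : P, {L | L ∈ R ∧ x ∈ L.X}.encard ≤ w := by
  haveI := Fintype.ofFinite P
  obtain ⟨f, f1, f2⟩ := dilworth (Finset.univ : Finset P) w fun A _ hA => h.2 ⟨A, hA, rfl⟩
  have := fun i : Fin w => over_chain {x : P | f x = i} fun x hx y hy =>
    f2 x (Finset.mem_univ _) y (Finset.mem_univ _) (hx.trans hy.symm)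
  choose s s1 s2 s3 using this
  let L : Fin w → PLE P := fun i =>
    { X := Set.univ
      lt := fun x y => s i x y ∧ x ≠ y
      mem := fun _ _ _ => ⟨trivial, trivial⟩
      irrefl := fun _ h => h.2 rfl
      trans := fun x y z h1 h2 => by
        haveI := s1 i
        exact ⟨_root_.trans h1.1 h2.1, fun e => h1.2 (antisymm h1.1 (e ▸ h2.1))⟩
      total := fun x _ y _ e => by
        haveI := s1 i
        exact (total_of (s i) x y).imp (fun h => ⟨h, e⟩) fun h => ⟨h, e.symm⟩
      ext := fun x _ y _ h => ⟨s2 i x y h.le, h.ne⟩ }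
  refine ⟨Set.range L, ⟨fun x y h => ⟨L ⟨0, hw⟩, ⟨_, rfl⟩, s2 _ x y h.le, h.ne⟩,
    fun x y h1 h2 => ⟨L ⟨f x, f1 x (Finset.mem_univ _)⟩, ⟨_, rfl⟩, s3 ⟨f x, f1 x (Finset.mem_univ _)⟩ x rfl y h1,
      fun e => h1 e.ge⟩⟩, fun x => ?_⟩
  calc _ ≤ (L '' Set.univ).encard := Set.encard_le_encard fun M hM => by
        rw [Set.image_univ]; exact hM.1
    _ ≤ (Set.univ : Set (Fin w)).encard := Set.encard_image_le _ _
    _ = w := by simp

private theorem attained (P : Type) [Finite P] [PartialOrder P] (w : ℕ) (hw : 1 ≤ w)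
    (h : HasWidth P w) : ∃ R : Set (PLE P), IsLocalRealizer R ∧
      ∀ x : P, {L | L ∈ R ∧ x ∈ L.X}.encard ≤ ldim P :=
  Nat.sInf_mem (s := {t : ℕ | ∃ R : Set (PLE P), IsLocalRealizer R ∧
    ∀ x : P, {L | L ∈ R ∧ x ∈ L.X}.encard ≤ t}) ⟨w, upper P w hw h⟩

private structure Q (w n N : ℕ) where
  s : Fin n
  a : Fin w → Fin (N + 1)

private def emb {w N : ℕ} (a : Fin w → Fin (N + 1)) : ℕ → ℕ :=
  fun i => if h : i < w then a ⟨i, h⟩ else 0

private instance (w n N : ℕ) : Finite (Q w n N) :=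
  Finite.of_injective (fun x : Q w n N => (x.s, x.a)) fun x y h => by
    cases x; cases y; simpa using h

private instance (w n N : ℕ) : PartialOrder (Q w n N) where
  le x y := x = y ∨ Rel w x.s (emb x.a) y.s (emb y.a)
  lt x y := Rel w x.s (emb x.a) y.s (emb y.a)
  le_refl _ := Or.inl rfl
  le_trans x y z := by
    rintro (rfl | h1) (rfl | h2)
    · exact Or.inl rfl
    · exact Or.inr h2
    · exact Or.inr h1
    · exact Or.inr (h1.trans' h2)
  le_antisymm x y := by
    rintro (h1 | h1) (h2 | h2)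
    · exact h1
    · exact h1
    · exact h2.symm
    · exact absurd (h1.trans' h2) (Rel.irrefl _ _ _)
  lt_iff_le_not_ge x y := by
    constructor
    · intro h
      refine ⟨Or.inr h, ?_⟩
      rintro (rfl | h2)
      · exact Rel.irrefl _ _ _ h
      · exact Rel.irrefl _ _ _ (h.trans' h2)
    · rintro ⟨rfl | h1, h2⟩
      · exact absurd (Or.inl rfl) h2
      · exact h1

private theorem dl_total {w N : ℕ} (a b : Fin w → Fin (N + 1)) (h : a ≠ b) :
    Dl w (emb a) (emb b) ∨ Dl w (emb b) (emb a) := by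
  classical
  have ex : ∃ i, emb a i ≠ emb b i := by
    obtain ⟨i, hi⟩ := Function.ne_iff.1 h
    exact ⟨i, by simpa [emb, Fin.ext_iff] using hi⟩
  have h1 := Nat.find_spec ex
  have h2 : ∀ j, j < Nat.find ex → emb a j = emb b j := fun j hj => by
    simpa using Nat.find_min ex hj
  have h3 : Nat.find ex < w := by
    by_contra hc
    have z : ∀ (c : Fin w → Fin (N + 1)) i, ¬ i < w → emb c i = 0 := fun c i hi => dif_neg hi
    exact h1 ((z a _ hc).trans (z b _ hc).symm)
  rcases lt_or_gt_of_ne h1 with l | l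
  · exact Or.inl ⟨_, h3, h2, l⟩
  · exact Or.inr ⟨_, h3, fun j hj => (h2 j hj).symm, l⟩

private theorem width_Q (w n N : ℕ) (hw : 1 ≤ w) (hn : w ≤ n) : HasWidth (Q w n N) w := by
  classical
  constructor
  · refine ⟨Finset.univ.image fun i : Fin w => (⟨Fin.castLE hn i, fun _ => 0⟩ : Q w n N), ?_, ?_⟩
    · intro x hx y hy hxy l
      simp only [Finset.coe_image, Set.mem_image] at hx hy
      obtain ⟨i, _, rfl⟩ := hx
      obtain ⟨j, _, rfl⟩ := hy
      rcases l with l | ⟨_, l⟩ | ⟨_, l | l⟩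
      · exact hxy l
      · exact Dl.irrefl _ _ l
      · have := j.2
        simp only [Fin.val_castLE] at l
        omega
      · exact Dl.irrefl _ _ l
    · rw [Finset.card_image_of_injective _ fun i j h => by
        simpa [Fin.ext_iff] using congrArg Q.s h]
      simp
  · rintro k ⟨A, hA, rfl⟩
    have := Finset.card_le_card_of_injOn (s := A) (t := Finset.range w) (fun x => (x.s : ℕ) % w)
      (fun x _ => by simpa using Nat.mod_lt _ hw) (fun x hx y hy e => by
        by_contra hxy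
        have far : ∀ p q : ℕ, p % w = q % w → p < q → p + w ≤ q := fun p q e l => by
          have := Nat.le_of_dvd (by omega) ((Nat.modEq_iff_dvd' l.le).1 e)
          omega
        rcases lt_trichotomy (x.s : ℕ) y.s with l | l | l
        · exact hA hx hy hxy (Or.inr (Or.inr ⟨l, Or.inl (far _ _ e l)⟩))
        · have : x.a ≠ y.a := fun e' => hxy (by
            cases x; cases y; simp only [Q.mk.injEq]; exact ⟨Fin.ext l, e'⟩)
          rcases dl_total _ _ this with d | d
          · exact hA hx hy hxy (Or.inr (Or.inl ⟨l, d⟩))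
          · exact hA hy hx (Ne.symm hxy) (Or.inr (Or.inl ⟨l.symm, d⟩))
        · exact hA hy hx (Ne.symm hxy) (Or.inr (Or.inr ⟨l, Or.inl (far _ _ e.symm l)⟩)))
    simpa using this

private theorem rel_congr {w s s' : ℕ} {a b a' b' : ℕ → ℕ} (ha : ∀ i < w, a i = a' i)
    (hb : ∀ i < w, b i = b' i) (h : Rel w s a s' b) : Rel w s a' s' b' := by
  have key : ∀ m ≤ w, Dl m a b → Dl m a' b' := fun m hm ⟨i, hi, e, l⟩ =>
    ⟨i, hi, fun j hj => by rw [← ha j (by omega), ← hb j (by omega)]; exact e j hj,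
      by rw [← ha i (by omega), ← hb i (by omega)]; exact l⟩
  rcases h with ⟨e, d⟩ | ⟨l, d⟩
  · exact Or.inl ⟨e, key w le_rfl d⟩
  · by_cases c : s + w ≤ s'
    · exact Or.inr ⟨l, Or.inl c⟩
    · exact Or.inr ⟨l, Or.inr (key _ (by omega) (d.resolve_left c))⟩

private def rho (w n N : ℕ) (hn : 0 < n) (s : ℕ) (a : List ℕ) : Q w n N :=
  ⟨if h : s < n then ⟨s, h⟩ else ⟨0, hn⟩, fun i => Fin.ofNat (N + 1) (a.getD i 0)⟩

private theorem rho_ev (w n : ℕ) (hn : 0 < n) (s : ℕ) (a : List ℕ) :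
    ∀ᶠ N in (hyperfilter ℕ : Filter ℕ), ∀ i < w, emb (rho w n N hn s a).a i = fn a i := by
  refine Nat.hyperfilter_le_atTop ?_
  have : ∀ᶠ N in atTop, ∀ i ∈ Finset.range w, fn a i ≤ N :=
    (eventually_all_finset _).2 fun i _ => eventually_ge_atTop _
  refine this.mono fun N hN i hi => ?_
  have := hN i (Finset.mem_range.2 hi)
  simp only [emb, dif_pos hi, rho, Fin.val_ofNat, fn] at this ⊢
  exact Nat.mod_eq_of_lt (by omega)

private theorem slots {P : Type} [PartialOrder P] (t : ℕ) (ht : 1 ≤ t) (S : Set (PLE P)) (x : P)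
    (hx : ∀ L ∈ S, x ∈ L.X) (h : S.encard ≤ t) :
    ∃ f : Fin t → PLE P, (∀ α, x ∈ (f α).X) ∧ ∀ L ∈ S, ∃ α, f α = L := by
  classical
  haveI : Nonempty (Fin t) := ⟨⟨0, ht⟩⟩
  obtain ⟨e, -, he⟩ := Set.Finite.exists_injOn_of_encard_le (s := S)
    (t := (Set.univ : Set (Fin t))) (Set.finite_of_encard_le_coe h) (by simpa using h)
  let d : PLE P := ⟨{x}, fun _ _ => False, fun _ _ h => h.elim, fun _ h => h, fun _ _ _ h _ => h,
    fun a ha b hb c => c (ha.trans hb.symm) |>.elim,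
    fun a ha b hb c => c.ne (ha.trans hb.symm)⟩
  refine ⟨fun α => if h : ∃ L ∈ S, e L = α then h.choose else d, fun α => ?_, fun L hL => ?_⟩
  · simp only
    split_ifs with c
    · exact hx _ c.choose_spec.1
    · rfl
  · have c : ∃ M ∈ S, e M = e L := ⟨L, hL, rfl⟩
    exact ⟨e L, by simp only [dif_pos c]; exact he c.choose_spec.1 hL c.choose_spec.2⟩

private theorem lower (t : ℕ) (ht : 1 ≤ t)
    (h : ∀ N, ∃ R : Set (PLE (Q (t + 1) (t * t + 1 + t) N)), IsLocalRealizer R ∧
      ∀ x, {L | L ∈ R ∧ x ∈ L.X}.encard ≤ t) : False := by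
  choose R hR hf using h
  have := fun N x => slots t ht _ x (fun L hL => hL.2) (hf N x)
  choose sl sl1 sl2 using this
  have hn : 0 < t * t + 1 + t := by omega
  let ρ := fun N => rho (t + 1) (t * t + 1 + t) N hn
  let E : Setoid (∀ N, PLE (Q (t + 1) (t * t + 1 + t) N)) :=
    ⟨fun f g => ∀ᶠ N in (hyperfilter ℕ : Filter ℕ), f N = g N,
      fun _ => Eventually.of_forall fun _ => rfl, fun h => h.mono fun _ e => e.symm,
      fun h1 h2 => (h1.and h2).mono fun _ e => e.1.trans e.2⟩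
  have rs : ∀ N s a, s < t * t + 1 + t → ((ρ N s a).s : ℕ) = s := fun N s a hs => by
    simp only [ρ, rho, dif_pos hs]
  refine core (Λ := Quotient E) (t := t) (w := t + 1) (n := t * t + 1 + t)
    (cls := fun s α a => Quotient.mk E fun N => sl N (ρ N s a) α)
    (ord := fun c s a s' b => ∀ᶠ N in (hyperfilter ℕ : Filter ℕ), (c.out N).lt (ρ N s a) (ρ N s' b))
    rfl ht rfl ?_ ?_ ?_ ?_
  · intro c s a s' b s'' e h1 h2
    exact (h1.and h2).mono fun N h => (c.out N).trans _ _ _ h.1 h.2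
  · intro c s a h
    obtain ⟨N, hN⟩ := h.exists
    exact (c.out N).irrefl _ hN
  · intro s α a s' β b hs hs' e r
    have e1 := Quotient.exact e
    have e2 := Quotient.mk_out (s := E) fun N => sl N (ρ N s a) α
    filter_upwards [e1, e2, rho_ev (t + 1) _ hn s a, rho_ev (t + 1) _ hn s' b] with N a1 a2 a3 a4
    rw [a2]
    refine PLE.ext _ _ (sl1 _ _ _) _ (a1 ▸ sl1 _ _ _) ?_
    show Rel _ _ _ _ _
    rw [rs N s a hs, rs N s' b hs']
    exact rel_congr (fun i hi => (a3 i hi).symm) (fun i hi => (a4 i hi).symm) r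
  · intro s a s' b hs hs' hne r1 r2
    have : ∀ᶠ N in (hyperfilter ℕ : Filter ℕ), ∃ p : Fin t × Fin t,
        sl N (ρ N s a) p.1 = sl N (ρ N s' b) p.2 ∧
          (sl N (ρ N s a) p.1).lt (ρ N s' b) (ρ N s a) := by
      filter_upwards [rho_ev (t + 1) _ hn s a, rho_ev (t + 1) _ hn s' b] with N a3 a4
      have ne : ρ N s a ≠ ρ N s' b := fun e => hne (by rw [← rs N s a hs, e, rs N s' b hs'])
      obtain ⟨L, hL, l⟩ := (hR N).2 (ρ N s a) (ρ N s' b) (by
        rintro (e | e)
        · exact ne e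
        · rw [rs N s a hs, rs N s' b hs'] at e
          exact r1 (rel_congr a3 a4 e)) (by
        rintro (e | e)
        · exact ne e.symm
        · rw [rs N s a hs, rs N s' b hs'] at e
          exact r2 (rel_congr a4 a3 e))
      obtain ⟨α, hα⟩ := sl2 N _ L ⟨hL, (L.mem _ _ l).2⟩
      obtain ⟨β, hβ⟩ := sl2 N _ L ⟨hL, (L.mem _ _ l).1⟩
      exact ⟨(α, β), hα.trans hβ.symm, hα ▸ l⟩
    obtain ⟨p, hp⟩ := Ultrafilter.eventually_exists_iff.1 this
    refine ⟨p, Quotient.sound (hp.mono fun N h => h.1), ?_⟩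
    have e2 := Quotient.mk_out (s := E) fun N => sl N (ρ N s a) p.1
    filter_upwards [hp, e2] with N a1 a2
    rw [a2]
    exact a1.2

theorem result (w : ℕ) (hw : 1 ≤ w) :
    IsGreatest {k | ∃ (P : Type) (_ : Finite P) (_ : PartialOrder P),
      HasWidth P w ∧ ldim P = k} w := by
  refine ⟨?_, ?_⟩
  · rcases hw.eq_or_lt with rfl | hw2
    · have h1 : HasWidth Bool 1 := ⟨⟨{true}, by simp, rfl⟩, by
        rintro k ⟨A, hA, rfl⟩
        exact Finset.card_le_one.2 fun x hx y hy => by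
          by_contra e
          rcases le_total x y with l | l
          · exact hA hx hy e l
          · exact hA hy hx (Ne.symm e) l⟩
      refine ⟨Bool, inferInstance, inferInstance, h1, le_antisymm
        (Nat.sInf_le (upper Bool 1 le_rfl h1)) ?_⟩
      obtain ⟨R, hR, hf⟩ := attained Bool 1 le_rfl h1
      obtain ⟨L, hL, l⟩ := hR.1 false true (by decide)
      have := (Set.one_le_encard_iff_nonempty.2
        (show {L | L ∈ R ∧ false ∈ L.X}.Nonempty from ⟨L, hL, (L.mem _ _ l).1⟩)).trans (hf false)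
      exact_mod_cast this
    · obtain ⟨t, rfl⟩ : ∃ t, w = t + 1 := ⟨w - 1, by omega⟩
      by_contra hc
      refine lower t (by omega) fun N => ?_
      have h1 := width_Q (t + 1) (t * t + 1 + t) N hw (by omega)
      have h2 := upper _ _ hw h1
      have h3 : ldim (Q (t + 1) (t * t + 1 + t) N) ≤ t + 1 := Nat.sInf_le h2
      have h4 : ldim (Q (t + 1) (t * t + 1 + t) N) ≠ t + 1 :=
        fun e => hc ⟨_, inferInstance, inferInstance, h1, e⟩
      obtain ⟨R, hR, hf⟩ := attained _ _ hw h1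
      refine ⟨R, hR, fun x => (hf x).trans ?_⟩
      have : ldim (Q (t + 1) (t * t + 1 + t) N) ≤ t := by omega
      exact_mod_cast this
  · rintro k ⟨P, _, _, h, rfl⟩
    exact Nat.sInf_le (upper P w hw h)

end Pool.Agent.Results.MP_33e188_co.Width
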